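import Pool.Agent.Q236.CR.Stm

/-!
# Project CR6: from the exponent 1/3 to Huxley's exponent 1/6

Every statement is a `Prop` with a complete proof in its docstring. `L = log X`. Nothing is optimised: constants may be
changed freely. The statements of project CR (`Pool/Agent/Q236/CR/Stm.lean`) are used.
-/

set_option autoImplicit false

namespace Pool.Agent.V5helper51.CR6

open Finset Filter MeasureTheory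
open Pool.Agent.H469R2.NK (e)
open Pool.Agent.Q236.CR

/-- **SMB**: smooth blocks, all lengths (from CHR and Kusmin-Landau). Proof. If `M ≤ 4 q |τ|` use the second part of CHR:
`≤ C q (√|τ| + M / √|τ|) (1 + log M)` and `M / √|τ| ≤ 4 q √|τ|` (the case `u = M - 1` costs one more term). If
`M > 4 q |τ|`: split into the classes `n = q m + b`, `0 ≤ b < q`; for each class the sum of
`(q m + b)^{-iτ} = e (f m)`, `f m = - (τ / 2π) log (q m + b)`, runs over an interval of `m` with `M ≤ q m + b ≤ 2 M` (omit at most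
one term), the differences `|f (m+1) - f m|` are monotone and lie between `|τ| q / (2 π (2 M + q))` and
`|τ| q / (2 π M) ≤ 1/8`; Kusmin-Landau (`Pool.Agent.H469R2.NK.kusmin_landau_mono`, `kusmin_landau_anti`) gives
`≤ 100 M / (q |τ|)` for each class. Weight `log n`: partial summation (lemma `abel_log` of `Pool/Agent/V5helper35/CR/FD.lean`). -/
def S_SMB : Prop := ∃ C : ℝ, 1 ≤ C ∧ ∀ (q : ℕ) (_ : NeZero q) (χ : DirichletCharacter ℂ q) (M u v : ℕ) (τ : ℝ),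
  1 ≤ M → M ≤ u + 1 → v ≤ 2 * M → 1 ≤ |τ| →
  ‖∑ n ∈ Finset.Ioc u v, χ (n : ZMod q) * nt τ n‖ ≤ C * q ^ 2 * (√|τ| + M / |τ|) * (1 + Real.log M) ∧
  ‖∑ n ∈ Finset.Ioc u v, (χ (n : ZMod q) * (Real.log n : ℂ)) * nt τ n‖ ≤
    C * q ^ 2 * (√|τ| + M / |τ|) * (1 + Real.log M) ^ 2

/-- **HMV**: large values (Halasz, Montgomery, Huxley), in measure form; from SMB with `q = 1`. Proof. Let
`ℓ = 2 + log (N + T)`, `A(τ) = ∑_{n ≤ N} a(n) n^{-iτ}`, `K(t) = ∑_{n ≤ N} n^{-it}`. By SMB (dyadic blocks)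
`|K(t)| ≤ C₁ ℓ² (√|t| + N / |t|)` for `1 ≤ |t| ≤ 2 T`, and `|K(t)| ≤ N` always. Let `E' ⊆ E` be the part of `E` in an interval of
length `T₁ ≥ 1` (`T₁ ≤ 2T`) and `η(τ)` the conjugate of the sign of `A(τ)` (measurable). Then
`V |E'| ≤ ∫_{E'} η A = ∑_n a(n) ∫_{E'} η n^{-iτ} ≤ G^{1/2} (∑_{n ≤ N} |∫_{E'} η n^{-iτ} dτ|²)^{1/2}` and
`∑_{n ≤ N} |∫_{E'} η n^{-iτ}|² = ∫∫_{E' × E'} η(τ) conj η(τ') K(τ - τ') ≤ |E'| (2 N + C₁ ℓ² (√T₁ |E'| + 2 N (1 + log T₁)))`.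
So `V² |E'|² ≤ G |E'| (C₂ ℓ³ N + C₂ ℓ² √T₁ |E'|)`. Put `T₁ = (V² / (2 C₂ ℓ² G))²`. If `T₁ ≥ 1` (and if `T₁ > 2T` use `2T` in its
place) the last term can be absorbed, `|E'| ≤ 2 C₂ ℓ³ G N / V²`, and `[-T, T]` is covered by `2 T / T₁ + 1` intervals of
length `T₁`. If `T₁ < 1` then `|E| ≤ 2 T ≤ 2 T (2 C₂ ℓ² G / V²)³ N`. -/
def S_HMV : Prop := ∃ C : ℕ, ∀ (N : ℕ) (a : ℕ → ℂ) (T V : ℝ) (E : Set ℝ), 1 ≤ N → 1 ≤ T → 0 < V → MeasurableSet E →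
  E ⊆ Set.Icc (-T) T → (∀ τ ∈ E, V ≤ ‖∑ n ∈ Finset.Icc 1 N, a n * nt τ n‖) →
  (volume E).toReal ≤ C * (2 + Real.log (N + T)) ^ C *
    ((∑ n ∈ Finset.Icc 1 N, ‖a n‖ ^ 2) * N / V ^ 2 + T * (∑ n ∈ Finset.Icc 1 N, ‖a n‖ ^ 2) ^ 3 * N / V ^ 6)

/-- **FMC**: the fourth moment of the `L`-functions near the critical line, with losses `q^C` and powers of the logarithm;
all characters, also principal and imprimitive ones. Proof. `LFunction χ` is `ZMod.LFunction Φ` with `Φ = χ`, `‖Φ‖ ≤ 1`; only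
the functional equation `ZMod.LFunction_one_sub` is used (no primitivity is needed):
`L(Φ, 1 - z) = q^{z-1} (2π)^{-z} Γ(z) (e^{πiz/2} L(𝓕Φ, z) + e^{-πiz/2} L(𝓕(Φ ∘ neg), z))`, where `|𝓕Φ| ≤ q`. The exact values
`|Γ(1/2 + iv)|² = π / cosh (π v)` and `|Γ(3/2 + iv)| = |1/2 + iv| |Γ(1/2 + iv)|` (`Complex.Gamma_mul_Gamma_one_sub`) give
`|Γ(z) e^{±πiz/2}| ≤ 10` on `Re z = 1/2` and `≤ 10 (1 + |v|)` on `Re z = 3/2`; in the strip between `|Γ(z)| ≤ 10`.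
Fix `s = 1/2 + κ + it`, `|t| ≤ T`, `Y = ⌈q T⌉`, and
`H(w) = (L(s + w, Φ) (s + w - 1) / (s + w + 1))² Y^w e^{w²} / w`, holomorphic in `-1 - κ ≤ Re w ≤ 1` except for the pole `w = 0` with
residue `(L(s, Φ) (s - 1) / (s + 1))²`, and tending to zero rapidly as `|Im w| → ∞`; `|(s-1)/(s+1)| ≥ 1/10`. So
`(L(s) (s-1)/(s+1))² = (1/2πi) (∫_{Re w = 1} - ∫_{Re w = -1-κ}) H(w) dw`.
On `Re w = 1`: `L(s + w, Φ)² = ∑ b(n) n^{-s-w}`, `b = Φ * Φ`, `|b| ≤ d`. The finite part `n ≤ Y` is moved to `Re w = κ`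
(where `|Y^w / w| ≤ Y^κ / κ`; if `Y^κ` is large, keep in mind that the coefficients are then `n^{-1/2-2κ}`; simplest: move to
`Re w = κ' = min κ (1 / log Y)`, so `|Y^w / w| ≤ e (1/κ + log Y)`), the part `n > Y` stays.
On `Re w = -1 - κ`: by the functional equation with `z = 1 - s - w`, `Re z = 3/2`, `L(s + w, Φ)²` is a combination of four
series `∑ b_j(n) n^{-z}`, `|b_j| ≤ q² d`, with coefficients `≤ (10 (1 + |Im z|))²`; the part `n ≤ Y` is moved to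
`Re w = -κ`, `Re z = 1/2`, where the coefficients are `≤ 100`; the part `n > Y` stays, with `|Y^w| = Y^{-1-κ}`.
(The rational factor is bounded by `5` everywhere as `Re (s + w) ≥ -1/2`.)
Hence `|L(s)|² ≤ C q^C (1/κ + log Y) ∫ e^{-v²} (∑_j |P_j(t+v)| + Y ∑_j |Q_j(t+v)| + Y^{-1} q² (1 + |t+v|)² ∑_j |Q'_j(t+v)|) dv` with
`P_j = ∑_{n ≤ Y} b(n) n^{-1/2 - ... ± i(t+v)}`, `Q_j, Q'_j = ∑_{n > Y} b(n) n^{-3/2 ...}`. Square, Cauchy-Schwarz in `v`, integrate over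
`|t| ≤ T` with `H370.mean_value` (`Pool/Agent/H370R2/MV.lean`) for `P` and for dyadic blocks of `Q` (Minkowski):
`∫ |P(t+v)|² dt ≤ (2T + 8 Y (1 + log Y)) ∑ d(n)² / n`, `∫ |Q(t + v)|² dt ≤ C Y^{-1} (log Y)^C`
(`∑_{n ≤ Y} d(n)^k / n ≤ (1 + log Y)^(2^k)` is in `Pool/Agent/H398R2/BA1.lean`). Everything is `≤ C q^C T (1/κ + log T)^C`. -/
def S_FMC : Prop := ∃ C : ℕ, ∀ (q : ℕ) (_ : NeZero q) (χ : DirichletCharacter ℂ q) (κ T : ℝ), 3 ≤ T → 0 < κ → κ ≤ 1 / 4 →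
  ∫ t in (-T)..T, ‖DirichletCharacter.LFunction χ (⟨1 / 2 + κ, t⟩ : ℂ)‖ ^ 4 ≤ C * (q : ℝ) ^ C * T * (1 / κ + Real.log T) ^ C

/-- **FMB**: the fourth moment of smooth blocks (from FMC and SMB). Proof. First the weight `1`. If `M > 2 q T`: SMB gives
`|block| ≤ C q² (√T + M/T) (1 + log M)`, whose fourth power times `T` is `≤ C' q^8 (T³ + M⁴/T³) (1 + log M)⁴ ≤ C'' q^C T M² (..)^4`
as `M ≤ T²`. (This case distinction is not needed, it is only a check.) In general let `S(x) = ∑_{n ≤ x} χ(n) n^{-iτ}`,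
`h = M^{-1/2}`, `S_h(x) = ∑_n χ(n) n^{-iτ} (max (log (x/n) + h) 0 - max (log (x/n)) 0) / h`; `|S_h(x) - S(x)| ≤ 5 √M` for
`x ∈ {u, v}` (the weight is `1` for `n ≤ x` and between `0` and `1` for `x < n < x e^h`). By the formula for Riesz sums
(`Pool/Agent/Y25/VK/MobA.lean`, the same with `χ` in place of `μ` and `L(s + iτ, χ)` in place of `1/ζ(s + iτ)`)
`S_h(x) = (1/2πi) ∫_{Re s = 2} L(s + iτ, χ) (e^{s (log x + h)} - e^{s log x}) / (h s²) ds`. Move the line to `Re s = 1/2 + κ`,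
`κ = 1 / log (T² + 3)` (take `κ ≤ 1/4`): growth `|L(s, χ)| ≤ C q (1 + |Im s|)^{1/2}` for `Re s ≥ 1/2` away from `s = 1`
(partial summation: `L(s) = ∑_{n ≤ |s| + 1} χ(n) n^{-s} + O(q |s| · |s|^{-Re s})` etc.; for the principal character there is the
pole `s = 1 - iτ`, with residue at most `10 M / |τ| ≤ 10 M / T`). On the line the kernel is at most
`C √M k(y)`, `k(y) = min (1 / (1/2 + |y|), √M / (1/4 + y²))` (`x^κ ≤ C` because `x ≤ 2 T²`). The part `|y| > T² + 3` contributes at most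
`C √M ∫_{|y| > T²} q |y|^{1/2} √M y^{-2} dy ≤ C q √M` (`√M ≤ T`). For the rest, by Hoelder
`|I(τ)|⁴ ≤ C M² (∫ k)³ ∫_{|y| ≤ T² + 3} |L(1/2 + κ + i(τ + y))|⁴ k(y) dy`; integrate over `τ ∈ [T, 2T]`: for `|y| ≤ T`
the inner integral is at most `∫_{|t| ≤ 3T} |L|⁴`, and for `2^j T ≤ |y| ≤ 2^{j+1} T`, changing the order of integration, the contribution is at
most `T (2^j T)^{-1} min (1, √M / (2^j T)) ∫_{|t| ≤ 2^{j+3} T} |L|⁴ ≤ 2^{-j} C q^C T (log T)^C` as `√M ≤ T`. Together with the errors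
`(C q √M + 10 M / T)⁴ T ≤ C q⁴ T M²` (`M ≤ T²`) this gives the claim. Negative `τ`: conjugate (`χ` replaced by its conjugate), or the
same proof. Weight `log n`: partial summation (`∑_{u < n ≤ v} log n a(n) = log v A(v) - ∑_{u < n < v} (log (n+1) - log n) A(n)`,
`A(n) = ∑_{u < m ≤ n} a(m)`), Minkowski or Hoelder, and the result for the blocks `(u, n]`. -/
def S_FMB : Prop := ∃ C : ℕ, ∀ (q : ℕ) (_ : NeZero q) (χ : DirichletCharacter ℂ q) (F : ℕ → ℂ) (M u v : ℕ) (T : ℝ),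
  (F = fun n : ℕ => χ (n : ZMod q)) ∨ (F = fun n : ℕ => χ (n : ZMod q) * (Real.log n : ℂ)) →
  1 ≤ M → M ≤ u + 1 → v ≤ 2 * M → 3 ≤ T → (M : ℝ) ≤ T ^ 2 →
  ∫ τ in T..(2 * T), ‖∑ n ∈ Finset.Ioc u v, F n * nt τ n‖ ^ 4 ≤ C * (q : ℝ) ^ C * T * M ^ 2 * Real.log T ^ C ∧
  ∫ τ in (-(2 * T))..(-T), ‖∑ n ∈ Finset.Ioc u v, F n * nt τ n‖ ^ 4 ≤ C * (q : ℝ) ^ C * T * M ^ 2 * Real.log T ^ C

/-- **MVH**: the second half of the proof of MVG (`Pool/Agent/V5helper43/CR/MVG.lean`): if all products of cells are small in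
mean square, so is the whole. Proof: as there; only the bound for the inner part is now a hypothesis. -/
def S_MVH : Prop := ∀ r U : ℕ, 1 ≤ r → ∃ K X₀ : ℕ, ∀ X : ℕ, X₀ ≤ X → ∀ T0 T : ℝ, 0 ≤ T0 → T0 ≤ T → T ≤ X →
  ∀ F : Fin r → ℕ → ℂ, (∀ i n, ‖F i n‖ ≤ Real.log (n + 3)) →
  (∀ M u v : Fin r → ℕ, (∀ i, 1 ≤ M i ∧ M i ≤ u i + 1 ∧ v i ≤ 2 * M i) → X ≤ ∏ i, M i → ∏ i, M i ≤ 18 ^ r * X →
    ∫ τ in T0..T, ∏ i, ‖∑ n ∈ Finset.Ioc (u i) (v i), F i n * nt τ n‖ ^ 2 ≤ (X : ℝ) ^ 2 / Real.log X ^ K ∧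
    ∫ τ in (-T)..(-T0), ∏ i, ‖∑ n ∈ Finset.Ioc (u i) (v i), F i n * nt τ n‖ ^ 2 ≤ (X : ℝ) ^ 2 / Real.log X ^ K) →
  ∀ x1 x2 : ℕ, X ≤ x1 → x2 ≤ 9 * X →
    ∫ τ in T0..T, ‖PD F x1 x2 τ‖ ^ 2 ≤ (X : ℝ) ^ 2 / Real.log X ^ U ∧
    ∫ τ in (-T)..(-T0), ‖PD F x1 x2 τ‖ ^ 2 ≤ (X : ℝ) ^ 2 / Real.log X ^ U

/-- **CEL**: one product of cells (from PW, SMB, FMB, HMV, DV and `H370.mean_value`). Proof. We may take `ε ≤ 1/100`. `δ = ε`,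
`ε₁ = δ / 24`, `m = ⌈1/ε₁⌉`, `D_i(τ) = ∑_{u_i < n ≤ v_i} F_i(n) n^{-iτ}`, `K'` large in terms of everything else.
(A) PW with `(B, K', m)`: for `M_i ≥ X^{ε₁}` (then `X ≤ M_i^m`; `M_i ≤ 18^6 X ≤ X²`) and `T' ≤ |τ| ≤ 2T'` one has
`|D_i(τ)| ≤ M_i / L^{K'}` (for `F_i = gmu` the block is intersected with `[1, z]`). Call such `i` big, the others tiny; for tiny
`i` trivially `|D_i| ≤ M_i L²`. There is a big `i`, since `r ≤ 6` and `∏ M_i ≥ X`.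
(B) The set where some big `|D_i| ≤ M_i X^{-2}` contributes at most `X · X^{-4} ∏ (M_i L²)²`, which is negligible. The rest is divided
according to `2^{-k_i-1} M_i < |D_i(τ)| ≤ 2^{-k_i} M_i`, `0 ≤ k_i ≤ 4 L` for all big `i` (if `|D_i| > M_i`, impossible by (A)): at most
`(4 L + 1)^6` measurable sets `E_k`. Write `2^{-k_i} M_i = M_i^{σ_i}`, `σ_i ≤ 1`, let `i` be a big index with `σ = σ_i` maximal,
`M = M_i`. Then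
`∫_{E_k} ∏ |D_j|² ≤ |E_k| L^{24} ∏_{tiny} M_j² ∏_{big} M_j^{2σ_j} ≤ |E_k| L^{24} (∏ M_j)² (∏_{big} M_j)^{-2(1-σ)}
≤ C |E_k| L^{24} X² X^{-2 (1-σ) (1 - 6 ε₁)}`.
(C) Claim: `|E_k| ≤ C q^C L^C X^{(2-δ)(1-σ)}`. Then the contribution is `≤ C q^C L^C X² X^{-(1-σ) δ/2}`, and (A) gives
`M^{-(1-σ)} = 2^{-k_i} ≤ 2 L^{-K'}` if `E_k` is not empty, so `X^{-(1-σ)} ≤ (M^{-(1-σ)})^{1/2} ≤ (2 L^{-K'})^{1/2}`: total
`≤ C L^{BC + C - K' δ/4} X²`, small if `K'` is large.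
Proof of the claim; put `V = M^σ / 2 < |D_i(τ)|` on `E = E_k`, `T' ≤ X^{5/6-ε}`.
 (1) `σ ≤ 1/2`: `|E| ≤ T' ≤ X^{5/6} ≤ X^{(2-δ)/2}`.
 (2) `σ > 1/2`, `M > X^{1/2 - δ/4}`: then `F_i` is not `gmu` (its block would be empty, `z ≤ 8 X^{1/3} < M`). If `M ≤ T'^2`: FMB gives
  `|E| ≤ V^{-4} C q^C T' M² L^C ≤ C q^C L^C X^{5/6-ε} M^{2-4σ} ≤ C q^C L^C X^{5/6 - ε + (1/2 - δ/4)(2 - 4σ)}` and the exponent is at most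
  `(2-δ)(1-σ)` (equivalent to `δ/2 ≤ 1/6 + ε`). If `M > T'^2`: SMB gives `M^σ / 2 ≤ C q² L² (√T' + M / T')`, and `√T' ≤ M^{1/4}`
  is negligible, so `T' ≤ C' q² L² M^{1-σ} ≤ C' q² L² (18^6 X)^{1-σ}`, and `|E| ≤ T'`.
 (3) `σ > 1/2`, `X^{ε₁} ≤ M ≤ X^{1/2 - δ/4}`: there is `1 ≤ g ≤ 1/ε₁` with `P = M^g ∈ [X^{2/3 - δ/3}, X^{1 - δ/2}]` (if
  `M ≥ X^{1/3 - δ/6}` take `g = 2`; otherwise the least `g` with `M^g ≥ X^{2/3-δ/3}`; then `M^g < X^{2/3 - δ/3 + 1/3 - δ/6}`).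
  `D_i^g = ∑_{n ≤ N} b(n) n^{-iτ}`, `N = (2M)^g ≤ C P`, `|b(n)| ≤ (3L)^g tr g (2M) n`, `G = ∑ |b|² ≤ C P L^C` by DV.
  `σ ≤ 3/4`: mean value theorem, `|E| V^{2g} ≤ (T' + C N L) G`, so `|E| ≤ C L^C (T' P^{1-2σ} + P^{2-2σ})`.
  `σ > 3/4`: HMV, `|E| ≤ C L^C (G N / V^{2g} + T' G³ N / V^{6g}) ≤ C L^C (P^{2-2σ} + T' P^{4-6σ})`.
  `P^{2-2σ} ≤ X^{(2-δ)(1-σ)}` as `P ≤ X^{1-δ/2}`. `T' P^{1-2σ} ≤ X^{5/6-ε+(2/3-δ/3)(1-2σ)}` for `1/2 ≤ σ ≤ 3/4`: the exponent minus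
  `(2-δ)(1-σ)` is linear in `σ`, at `σ = 1/2` it is `5/6 - ε - 1 + δ/2 < 0`, at `3/4` it is `δ/6 + δ/4 - ε < 0`. Similarly for
  `T' P^{4-6σ}`, `3/4 ≤ σ ≤ 1`: the same value at `3/4`, and `-1/2 - ε + 2δ/3 < 0` at `σ = 1`. -/
def S_CEL : Prop := ∀ ε : ℝ, 0 < ε → ∀ B K : ℕ, ∃ Cm X₀ : ℕ, ∀ X : ℕ, X₀ ≤ X → ∀ (q : ℕ) (_ : NeZero q),
  (q : ℝ) ≤ Real.log X ^ B → ∀ χ : DirichletCharacter ℂ q, ∀ r : ℕ, 1 ≤ r → r ≤ 6 → ∀ T' : ℝ, Real.log X ^ Cm ≤ T' →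
  T' ≤ (X : ℝ) ^ (5 / 6 - ε : ℝ) → ∀ z : ℕ, (z : ℝ) ≤ 8 * (X : ℝ) ^ (1 / 3 : ℝ) →
  ∀ F : Fin r → ℕ → ℂ, (∀ i, F i = gmu (fun n : ℕ => χ (n : ZMod q)) z ∨ F i = (fun n : ℕ => χ (n : ZMod q)) ∨
    F i = fun n : ℕ => χ (n : ZMod q) * (Real.log n : ℂ)) →
  ∀ M u v : Fin r → ℕ, (∀ i, 1 ≤ M i ∧ M i ≤ u i + 1 ∧ v i ≤ 2 * M i) → X ≤ ∏ i, M i → ∏ i, M i ≤ 18 ^ r * X →
    ∫ τ in T'..(2 * T'), ∏ i, ‖∑ n ∈ Finset.Ioc (u i) (v i), F i n * nt τ n‖ ^ 2 ≤ (X : ℝ) ^ 2 / Real.log X ^ K ∧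
    ∫ τ in (-(2 * T'))..(-T'), ∏ i, ‖∑ n ∈ Finset.Ioc (u i) (v i), F i n * nt τ n‖ ^ 2 ≤ (X : ℝ) ^ 2 / Real.log X ^ K

/-- the Dirichlet polynomials over `χ Λ` and `χ μ` in mean square up to the height `X^{1-ϑ}`; `S_DPL` is `DPLt (1/3)` -/
def DPLt (ϑ : ℝ) : Prop := ∀ B U : ℕ, ∃ Cm : ℕ, ∀ C₀ : ℕ, Cm ≤ C₀ → ∃ C₁ X₀ : ℕ, ∀ X : ℕ, X₀ ≤ X →
  ∀ (q : ℕ) (_ : NeZero q), (q : ℝ) ≤ Real.log X ^ B → ∀ χ : DirichletCharacter ℂ q, ∀ T : ℝ,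
  T * Real.log X ^ C₁ ≤ (X : ℝ) ^ (1 - ϑ : ℝ) → Real.log X ^ C₀ ≤ T → ∀ x1 x2 : ℕ, X ≤ x1 → x2 ≤ 9 * X →
  ∀ c : ℕ → ℂ, c = cL χ ∨ c = cM χ →
    ∫ τ in (Real.log X ^ C₀)..T, ‖∑ n ∈ Finset.Ioc x1 x2, c n * nt τ n‖ ^ 2 ≤ (X : ℝ) ^ 2 / Real.log X ^ U ∧
    ∫ τ in (-T)..(-Real.log X ^ C₀), ‖∑ n ∈ Finset.Ioc x1 x2, c n * nt τ n‖ ^ 2 ≤ (X : ℝ) ^ 2 / Real.log X ^ U

/-- **DP6** (from HB, MVH, CEL; as DPL): HB with `k = 3`, `g = χ`, `z = ⌈(9X)^{1/3}⌉ + 1 ≤ 8 X^{1/3}`; dyadic pieces `[T', 2T']`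
(the last one may be cut: extend it to `2T'`, still `≤ X^{5/6-ε/2}`); MVH on each piece, its hypothesis is CEL (`r ≤ 6`). -/
def S_DP6 : Prop := ∀ ε : ℝ, 0 < ε → DPLt (1 / 6 + ε)

/-- primes and the Moebius function with characters in almost all short intervals of length `≥ x^ϑ (log x)^C` -/
def SICt (ϑ : ℝ) : Prop := ∀ B U : ℕ, ∃ C X₀ : ℕ, ∀ x : ℕ, X₀ ≤ x → ∀ (q : ℕ) (_ : NeZero q),
  (q : ℝ) ≤ Real.log x ^ B → ∀ χ : DirichletCharacter ℂ q, ∀ Y : ℕ, (x : ℝ) ^ ϑ * Real.log x ^ C ≤ Y → Y ≤ x →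
  ∑ m ∈ Finset.Ioc x (2 * x), ‖∑ n ∈ Finset.Ioc m (m + Y), (cL χ n - (if χ = 1 then 1 else 0))‖ ^ 2 ≤
    x * (Y : ℝ) ^ 2 / Real.log x ^ U ∧
  ∑ m ∈ Finset.Ioc x (2 * x), ‖∑ n ∈ Finset.Ioc m (m + Y), cM χ n‖ ^ 2 ≤ x * (Y : ℝ) ^ 2 / Real.log x ^ U

/-- **SIT** (as SIC, from `DPLt`, WIN, LOW, SMB): for the constant `δ` use SMB with `q = 1` on the four blocks in place of FD:
`∫_{L^{C₀}}^T (√τ + x/τ)² L² dτ ≤ C L² (T² + x² / L^{C₀})`, and `T ≤ x^{1-ϑ}`. -/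
def S_SIT : Prop := ∀ ϑ : ℝ, 0 < ϑ → ϑ ≤ 1 / 3 → DPLt ϑ → SICt ϑ

/-- additive characters in almost all short intervals of length `≥ x^ϑ (log x)^C` -/
def SIAt (ϑ : ℝ) : Prop := ∀ B U : ℕ, ∃ C X₀ : ℕ, ∀ x : ℕ, X₀ ≤ x → ∀ q : ℕ, 1 ≤ q → (q : ℝ) ≤ Real.log x ^ B →
  ∀ a Y : ℕ, (x : ℝ) ^ ϑ * Real.log x ^ C ≤ Y → Y ≤ x →
  ∑ m ∈ Finset.Ioc x (2 * x), ‖∑ n ∈ Finset.Ioc m (m + Y),
      (ArithmeticFunction.vonMangoldt n : ℂ) * e ((a : ℝ) * n / q) - cc q a * Y‖ ^ 2 ≤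
    x * (Y : ℝ) ^ 2 / Real.log x ^ U ∧
  ∑ m ∈ Finset.Ioc x (2 * x), ‖∑ n ∈ Finset.Ioc m (m + Y),
      ((ArithmeticFunction.moebius n : ℤ) : ℂ) * e ((a : ℝ) * n / q)‖ ^ 2 ≤
    x * (Y : ℝ) ^ 2 / Real.log x ^ U

/-- **SAT** (as SIA, for a general exponent) -/
def S_SAT : Prop := ∀ ϑ : ℝ, 0 < ϑ → ϑ ≤ 1 / 3 → SICt ϑ → SIAt ϑ

end Pool.Agent.V5helper51.CR6
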