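import Pool.Agent.V5helper24.CR.All
import Pool.Agent.V5helper35.CR6.SMB
import Pool.Agent.V5helper35.CR6.FMC
import Pool.Agent.V5helper81.CR6.FMB
import Pool.Agent.V5helper43.CR6.HMV
import Pool.Agent.V5helper43.CR6.MVH
import Pool.Agent.V5helper44.CR6.CEL
import Pool.Agent.V5helper9.CR6.DP6
import Pool.Agent.V5helper9.CR6.SIT
import Pool.Agent.V5helper39.CR6.SAT

/-!
# Project CR6: the unconditional theorems

Primes and the Möbius function twisted by characters in almost all intervals of the length `X ^ (1 / 6 + ε)` (authors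
of the parts: helper35, helper43, helper81, helper44, helper9, helper39, on the project CR).
-/

set_option autoImplicit false

namespace Pool.Agent.V5helper51.CR6

open Pool.Agent.Q236.CR

theorem smb_all : S_SMB := Pool.Agent.V5helper35.CR6.smb Pool.Agent.V5helper51.CR.chr

theorem fmb_all : S_FMB := Pool.Agent.V5helper81.CR6.fmb Pool.Agent.V5helper35.CR6.fmc smb_all

theorem hmv_all : S_HMV := Pool.Agent.V5helper43.CR6.hmv smb_all

theorem mvh_all : S_MVH := Pool.Agent.V5helper43.CR6.mvh Pool.Agent.V5helper43.CR.dv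

theorem cel_all : S_CEL := Pool.Agent.V5helper44.CR6.cel Pool.Agent.V5helper24.CR.pw_all smb_all fmb_all hmv_all
  Pool.Agent.V5helper43.CR.dv

theorem dp6_all : S_DP6 := Pool.Agent.V5helper9.CR6.dp6 Pool.Agent.V5helper24.CR.hb3_all mvh_all cel_all

theorem sit_all : S_SIT := Pool.Agent.V5helper9.CR6.sit Pool.Agent.V5helper43.CR.win Pool.Agent.V5helper39.CR.low smb_all

/-- the exponent `1 / 6 + ε` -/
theorem sia6 {ε : ℝ} (hε : 0 < ε) (h1 : 1 / 6 + ε ≤ 1 / 3) : SIAt (1 / 6 + ε) :=
  Pool.Agent.V5helper39.CR6.sat (1 / 6 + ε) (by linarith) h1 (sit_all (1 / 6 + ε) (by linarith) h1 (dp6_all ε hε))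

end Pool.Agent.V5helper51.CR6
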